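import Pool.Agent.V7H11.Nu3.Mod4

/-!
# Infinitely many maximal `(ν₃, 2)`-progressions

For every prime `p ≡ 5 (mod 8)` the pair `(8 p², 6 p)` is a `(ν₃, 2)`-progression, and every
`(ν₃, 2)`-progression containing it has a first entry divisible by `p`.
-/

set_option autoImplicit false

namespace Pool.Agent.Results.MP_c222f6_nt.InfinitelyManyNu3H11

open Finset

/-- `nu k n` is the number of partitions of `n` in which exactly `k` distinct part sizes occur. -/
def nu (k n : ℕ) : ℕ :=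
  (univ.filter (fun p : n.Partition => p.parts.toFinset.card = k)).card

/-- The arithmetic progression `P(A, B) = {A n + B : n ≥ 0}`. -/
def P (A B : ℕ) : Set ℕ := {x | ∃ n : ℕ, x = A * n + B}

/-- `(A, B)` is a `(ν_k, M)`-progression. -/
def IsProgression (k M A B : ℕ) : Prop :=
  1 ≤ A ∧ 1 ≤ B ∧ B ≤ A ∧ ∀ n : ℕ, M ∣ nu k (A * n + B)

/-- `(A, B)` is a maximal `(ν_k, M)`-progression. -/
def IsMaximal (k M A B : ℕ) : Prop :=
  IsProgression k M A B ∧ ¬ ∃ A' B' : ℕ, IsProgression k M A' B' ∧ P A B ⊂ P A' B'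

/-- Containment of progressions. -/
theorem P_subset {A B A' B' : ℕ} (h : P A B ⊆ P A' B') : A' ∣ A ∧ B' ≤ B ∧ A' ∣ B - B' := by
  obtain ⟨u, hu⟩ := h (show B ∈ P A B from ⟨0, by ring⟩)
  obtain ⟨v, hv⟩ := h (show A + B ∈ P A B from ⟨1, by ring⟩)
  refine ⟨?_, by nlinarith, ⟨u, by omega⟩⟩
  have hvu : A + A' * u = A' * v := by omega
  have h2 : A = A' * v - A' * u := by omega
  rw [h2, ← Nat.mul_sub]
  exact dvd_mul_right _ _

theorem ssubset_lt {A B A' B' : ℕ} (hA : B ≤ A) (hB : 1 ≤ B) (hB' : 1 ≤ B') (hA' : B' ≤ A')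
    (h : P A B ⊂ P A' B') : A' < A := by
  obtain ⟨h1, h2, h3⟩ := P_subset h.1
  have h4 : A' ≤ A := Nat.le_of_dvd (by omega) h1
  rcases lt_or_eq_of_le h4 with h5 | h5
  · exact h5
  · exfalso
    subst h5
    obtain ⟨w, hw⟩ := h3
    have hw0 : w = 0 := by
      rcases Nat.eq_zero_or_pos w with h | h
      · exact h
      · exfalso
        have : A' * 1 ≤ A' * w := Nat.mul_le_mul_left _ h
        omega
    subst hw0
    have : B = B' := by omega
    subst this
    exact h.2 (subset_refl _)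

/-- Every progression lies in a maximal one. -/
theorem exists_maximal (k M : ℕ) : ∀ A B : ℕ, IsProgression k M A B →
    ∃ A' B' : ℕ, IsMaximal k M A' B' ∧ P A B ⊆ P A' B' := by
  intro A
  induction A using Nat.strong_induction_on with
  | _ A ih =>
    intro B hAB
    by_cases hmax : ∃ A' B' : ℕ, IsProgression k M A' B' ∧ P A B ⊂ P A' B'
    · obtain ⟨A', B', h1, h2⟩ := hmax
      have hlt := ssubset_lt hAB.2.2.1 hAB.2.1 h1.2.1 h1.2.2.1 h2
      obtain ⟨A'', B'', h3, h4⟩ := ih A' hlt B' h1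
      exact ⟨A'', B'', h3, h2.1.trans h4⟩
    · exact ⟨A, B, ⟨hAB, hmax⟩, subset_refl _⟩

/-- `-2` is not a square modulo a prime `p ≡ 5 (mod 8)`. -/
theorem no_rep {p N : ℕ} (hp : p.Prime) (hp8 : p % 8 = 5) (h1 : p ∣ N) (h2 : ¬ p ^ 2 ∣ N)
    (u w : ℕ) : u * u + 2 * (w * w) ≠ N := by
  intro h
  have : Fact p.Prime := ⟨hp⟩
  have hz : ((u * u + 2 * (w * w) : ℕ) : ZMod p) = 0 := by
    rw [h, ZMod.natCast_eq_zero_iff]
    exact h1
  push_cast at hz
  have hw : (w : ZMod p) = 0 := by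
    by_contra hw
    have hsq : IsSquare (-2 : ZMod p) := by
      refine ⟨(u : ZMod p) / w, ?_⟩
      field_simp
      linear_combination (-1) * hz
    rw [ZMod.exists_sq_eq_neg_two_iff (by omega)] at hsq
    omega
  have hu : (u : ZMod p) = 0 := by
    rw [hw] at hz
    have : (u : ZMod p) * u = 0 := by linear_combination hz
    exact mul_self_eq_zero.mp this
  rw [ZMod.natCast_eq_zero_iff] at hu hw
  apply h2
  rw [← h]
  have e1 : p ^ 2 ∣ u * u := by rw [pow_two]; exact mul_dvd_mul hu hu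
  have e2 : p ^ 2 ∣ w * w := by rw [pow_two]; exact mul_dvd_mul hw hw
  exact dvd_add e1 (Dvd.dvd.mul_left e2 2)

/-- `(8 p², 6 p)` is a `(ν₃, 2)`-progression. -/
theorem progression {p : ℕ} (hp : p.Prime) (hp8 : p % 8 = 5) :
    IsProgression 3 2 (8 * p ^ 2) (6 * p) := by
  have hp0 := hp.pos
  refine ⟨Nat.one_le_iff_ne_zero.mpr (by positivity), by omega, by nlinarith, ?_⟩
  intro n
  set b := 4 * (p * n) + 3 with hb
  have e1 : 8 * p ^ 2 * n + 6 * p = 2 * (p * b) := by rw [hb]; ring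
  have hpb : ¬ p ∣ b := by
    intro h
    have h1 : p ∣ 3 := by
      have := (Nat.dvd_add_right (Dvd.dvd.mul_left (dvd_mul_right p n) 4)).mp h
      exact this
    have := Nat.le_of_dvd (by norm_num) h1
    omega
  have hb4 : b % 4 = 3 := by omega
  have hN : (p * b) % 4 = 3 := by
    rw [Nat.mul_mod, hb4, show p % 4 = 1 by omega]
  have hH : ∀ u w : ℕ, u * u + 2 * (w * w) ≠ p * b := by
    apply no_rep hp hp8 (dvd_mul_right p b)
    rw [pow_two]
    intro h
    exact hpb (Nat.dvd_of_mul_dvd_mul_left hp0 h)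
  have h6 := Pool.Agent.V7H11.Nu3.main hN hH
  have hcop : Nat.Coprime p b := (Nat.Prime.coprime_iff_not_dvd hp).mpr hpb
  have sq0 : ∀ m : ℕ, m % 4 = 3 → Pool.Agent.R443.Nu2.s m = 0 := by
    intro m hm
    apply Pool.Agent.R443.Nu2.s_eq_zero
    intro x _ h
    rcases Pool.Agent.V7H11.Nu3.sq_mod x with h7 | h7 <;> omega
  have hcard := Pool.Agent.R443.Nu2.card_eq (p * b)
  have hcard2 := Pool.Agent.R443.Nu2.card_eq b
  rw [sq0 _ hN, Nat.Coprime.card_divisors_mul hcop, hp.divisors, card_pair hp.one_lt.ne,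
    hcard2, sq0 _ hb4] at hcard
  have he : 2 ∣ Pool.Agent.R443.Nu2.e (p * b) := by omega
  rw [e1]
  change 2 ∣ Pool.Agent.R443.Nu2.nu 3 (2 * (p * b))
  obtain ⟨c, hc⟩ := he
  rw [hc] at h6
  have h8 : ((6 * Pool.Agent.R443.Nu2.nu 3 (2 * (p * b)) : ℕ) : ZMod 4) = 0 := by
    push_cast
    rw [h6]
    push_cast
    rw [← mul_assoc, show (2 : ZMod 4) * 2 = 0 by decide, zero_mul]
  rw [ZMod.natCast_eq_zero_iff] at h8
  omega

theorem nu_six : nu 3 6 = 1 := by
  have h := Pool.Agent.V7H11.Nu3.nu3_formula 6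
  have h1 : ∑ p ∈ antidiagonal 6, Pool.Agent.V7H11.Nu3.d p.1 *
      (∑ q ∈ antidiagonal p.2, Pool.Agent.V7H11.Nu3.d q.1 * Pool.Agent.V7H11.Nu3.d q.2) -
      3 * ∑ p ∈ antidiagonal 6, Pool.Agent.V7H11.Nu3.d p.1 *
        (Pool.Agent.V7H11.Nu3.sg p.2 - Pool.Agent.V7H11.Nu3.d p.2) +
      ∑ a ∈ (6 : ℕ).divisors, ((a : ℤ) - 1) * ((a : ℤ) - 2) = 6 := by decide +kernel
  rw [h1] at h
  have h2 : Pool.Agent.R443.Nu2.nu 3 6 = 1 := by omega
  exact h2

/-- The first entries of the maximal progressions are unbounded. -/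
theorem unbounded (N : ℕ) : ∃ A B : ℕ, IsMaximal 3 2 A B ∧ N < A := by
  obtain ⟨p, hpN, hp, hpeq⟩ := Nat.forall_exists_prime_gt_and_eq_mod (q := 8) (a := 5)
    (by decide) N
  have hp8 : p % 8 = 5 := by
    have h1 : ((p : ℕ) : ZMod 8) = ((5 : ℕ) : ZMod 8) := by rw [hpeq]; rfl
    have h2 := (ZMod.natCast_eq_natCast_iff p 5 8).mp h1
    exact h2
  obtain ⟨A, B, hmax, hsub⟩ := exists_maximal 3 2 _ _ (progression hp hp8)
  refine ⟨A, B, hmax, ?_⟩
  obtain ⟨h1, h2, h3⟩ := P_subset hsub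
  obtain ⟨hA1, hB1, hBA, hdiv⟩ := hmax.1
  have hpA : p ∣ A := by
    by_contra hcon
    have hcop : Nat.Coprime A (p ^ 2) := by
      apply Nat.Coprime.pow_right
      rw [Nat.coprime_comm]
      exact (Nat.Prime.coprime_iff_not_dvd hp).mpr hcon
    have h4 : A ∣ 8 := hcop.dvd_of_dvd_mul_right h1
    have hA8 : A ≤ 8 := Nat.le_of_dvd (by norm_num) h4
    have h6 : ∃ n, A * n + B = 6 := by
      obtain ⟨w, hw⟩ := h3
      have hp' : ∃ m, p = 8 * m + 5 := ⟨p / 8, by omega⟩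
      obtain ⟨m, rfl⟩ := hp'
      interval_cases A
      · exact ⟨6 - B, by omega⟩
      · exact ⟨(6 - B) / 2, by omega⟩
      · omega
      · exact ⟨(6 - B) / 4, by omega⟩
      · omega
      · omega
      · omega
      · exact ⟨0, by omega⟩
    obtain ⟨n, hn⟩ := h6
    have := hdiv n
    rw [hn, nu_six] at this
    omega
  exact lt_of_lt_of_le hpN (Nat.le_of_dvd (by omega) hpA)

/-- There are infinitely many maximal `(ν₃, 2)`-progressions. -/
theorem result : {q : ℕ × ℕ | IsMaximal 3 2 q.1 q.2}.Infinite := by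
  intro hfin
  obtain ⟨M, hM⟩ := (hfin.image Prod.fst).bddAbove
  obtain ⟨A, B, h1, h2⟩ := unbounded M
  have : A ≤ M := hM ⟨(A, B), h1, rfl⟩
  omega

end Pool.Agent.Results.MP_c222f6_nt.InfinitelyManyNu3H11
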